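import Pool.Agent.H88.OT.Targets

/-!
# (QI) exact evaluation of the quadratic forms
-/

set_option autoImplicit false

namespace Pool.Agent.H1.OT

open Finset Pool.Agent.H88.OT
open Pool.Agent.H28.MZ (PP)

/-! ### Sums over divisors -/

theorem sum_div_mul {m n : ℕ} (h : Nat.Coprime m n) (f : ℕ → ℝ) :
    ∑ d ∈ (m * n).divisors, f d = ∑ d ∈ m.divisors, ∑ e ∈ n.divisors, f (d * e) := by
  rw [Nat.divisors_mul, Finset.mul_def, Finset.sum_image h.mul_injOn_divisors,
    Finset.sum_product]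

theorem la_mul {m n : ℕ} (h : Nat.Coprime m n) : la (m * n) = la m + la n := by
  unfold la
  rw [h.primeFactors_mul, Finset.sum_union h.disjoint_primeFactors]

theorem la_pow {p : ℕ} (hp : p.Prime) (j : ℕ) :
    la (p ^ (j + 1)) = Real.log p / ((p : ℝ) - 1) := by
  unfold la
  rw [Nat.primeFactors_prime_pow (Nat.succ_ne_zero j) hp, Finset.sum_singleton]

theorem la_one : la 1 = 0 := by
  unfold la
  simp

theorem sum_tot (n : ℕ) : ∑ d ∈ n.divisors, (Nat.totient d : ℝ) = n := by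
  exact_mod_cast Nat.sum_totient n

theorem nlog_pp {p : ℕ} (hp : p.Prime) (n : ℕ) :
    ∑ d ∈ (p ^ n).divisors, (Nat.totient d : ℝ) * (Real.log d + la d) =
      ((p ^ n : ℕ) : ℝ) * Real.log ((p ^ n : ℕ) : ℝ) := by
  rw [Nat.sum_divisors_prime_pow hp]
  have hp1 : (1 : ℝ) < p := by exact_mod_cast hp.one_lt
  induction n with
  | zero => simp [la_one]
  | succ n ih =>
    rw [Finset.sum_range_succ, ih, Nat.totient_prime_pow_succ hp, la_pow hp]
    push_cast
    rw [Real.log_pow, Real.log_pow, Nat.cast_sub hp.one_lt.le]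
    have : (p : ℝ) - 1 ≠ 0 := by linarith
    push_cast
    field_simp
    ring

theorem nlog (n : ℕ) : ∑ d ∈ n.divisors, (Nat.totient d : ℝ) * (Real.log d + la d) =
    (n : ℝ) * Real.log n := by
  induction n using Nat.recOnPosPrimePosCoprime with
  | prime_pow p n hp _ => exact nlog_pp hp n
  | zero => simp
  | one => simp [la_one]
  | coprime a b ha hb hab iha ihb =>
    have ha0 : (a : ℝ) ≠ 0 := by
      have : a ≠ 0 := by omega
      exact_mod_cast this
    have hb0 : (b : ℝ) ≠ 0 := by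
      have : b ≠ 0 := by omega
      exact_mod_cast this
    rw [sum_div_mul hab]
    have h1 : ∀ d ∈ a.divisors, ∀ e ∈ b.divisors,
        (Nat.totient (d * e) : ℝ) * (Real.log ((d * e : ℕ) : ℝ) + la (d * e)) =
        (Nat.totient d : ℝ) * (Real.log d + la d) * (Nat.totient e : ℝ) +
          (Nat.totient d : ℝ) * ((Nat.totient e : ℝ) * (Real.log e + la e)) := by
      intro d hd e he
      have hde : Nat.Coprime d e :=
        Nat.Coprime.coprime_dvd_left (Nat.dvd_of_mem_divisors hd)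
          (Nat.Coprime.coprime_dvd_right (Nat.dvd_of_mem_divisors he) hab)
      have hd0 : (d : ℝ) ≠ 0 := by
        exact_mod_cast (Nat.pos_of_mem_divisors hd).ne'
      have he0 : (e : ℝ) ≠ 0 := by
        exact_mod_cast (Nat.pos_of_mem_divisors he).ne'
      rw [Nat.totient_mul hde, la_mul hde]
      push_cast
      rw [Real.log_mul hd0 he0]
      ring
    rw [Finset.sum_congr rfl fun d hd => Finset.sum_congr rfl fun e he => h1 d hd e he]
    simp only [Finset.sum_add_distrib, ← Finset.mul_sum, ← Finset.sum_mul, sum_tot, iha, ihb]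
    push_cast
    rw [Real.log_mul ha0 hb0]
    ring

/-! ### Divisibility -/

theorem dvd_iff {d h a : ℕ} (hd : 0 < d) : d ∣ h * a ↔ d / Nat.gcd d a ∣ h := by
  obtain ⟨g, hg⟩ : ∃ g, g = Nat.gcd d a := ⟨_, rfl⟩
  have hg0 : 0 < g := by rw [hg]; exact Nat.gcd_pos_of_pos_left _ hd
  have hco : Nat.Coprime (d / g) (a / g) := by
    rw [hg]; exact Nat.coprime_div_gcd_div_gcd (by rw [← hg]; exact hg0)
  have h1 : g * (d / g) = d := Nat.mul_div_cancel' (by rw [hg]; exact Nat.gcd_dvd_left _ _)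
  have h2 : g * (a / g) = a := Nat.mul_div_cancel' (by rw [hg]; exact Nat.gcd_dvd_right _ _)
  rw [← hg]
  constructor
  · intro h3
    rw [← h1, ← h2, show h * (g * (a / g)) = g * (h * (a / g)) by ring] at h3
    have h4 := Nat.dvd_of_mul_dvd_mul_left hg0 h3
    exact hco.dvd_of_dvd_mul_right h4
  · intro h3
    calc d = g * (d / g) := h1.symm
      _ ∣ g * h := Nat.mul_dvd_mul_left g h3
      _ ∣ h * a := ⟨a / g, by rw [← h2]; ring_nf; rw [Nat.mul_div_cancel_left _ hg0]⟩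

theorem gcd_dvd_iff {Y h k a b d : ℕ} (hh : h ∈ Icc 1 Y) (hk : k ∈ Icc 1 Y) (ha : 1 ≤ a)
    (hb : 1 ≤ b) : d ∈ (Nat.gcd (h * a) (k * b)).divisors ↔
      d ∈ Icc 1 (Y * a) ∧ d / Nat.gcd d a ∣ h ∧ d / Nat.gcd d b ∣ k := by
  rw [mem_Icc] at hh hk
  have hha : 0 < h * a := Nat.mul_pos hh.1 ha
  rw [Nat.mem_divisors, mem_Icc, Nat.dvd_gcd_iff]
  constructor
  · rintro ⟨⟨h1, h2⟩, -⟩
    have hd := Nat.pos_of_dvd_of_pos h1 hha
    refine ⟨⟨hd, (Nat.le_of_dvd hha h1).trans (Nat.mul_le_mul_right _ hh.2)⟩, ?_, ?_⟩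
    · exact (dvd_iff hd).1 h1
    · exact (dvd_iff hd).1 h2
  · rintro ⟨⟨hd, -⟩, h1, h2⟩
    exact ⟨⟨(dvd_iff hd).2 h1, (dvd_iff hd).2 h2⟩, (Nat.gcd_pos_of_pos_left _ hha).ne'⟩

open scoped Classical in
/-- interchange of the sums -/
theorem swap (Y a b : ℕ) (ha : 1 ≤ a) (hb : 1 ≤ b) (w : ℕ → ℕ → ℝ) (F : ℕ → ℝ) :
    ∑ h ∈ Icc 1 Y, ∑ k ∈ Icc 1 Y, w h k * ∑ d ∈ (Nat.gcd (h * a) (k * b)).divisors, F d =
      ∑ d ∈ Icc 1 (Y * a), F d * ∑ h ∈ (Icc 1 Y).filter (fun h => d / Nat.gcd d a ∣ h),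
        ∑ k ∈ (Icc 1 Y).filter (fun k => d / Nat.gcd d b ∣ k), w h k := by
  have e1 : ∀ h ∈ Icc 1 Y, ∀ k ∈ Icc 1 Y,
      w h k * ∑ d ∈ (Nat.gcd (h * a) (k * b)).divisors, F d =
      ∑ d ∈ Icc 1 (Y * a), if d / Nat.gcd d a ∣ h ∧ d / Nat.gcd d b ∣ k then F d * w h k
        else 0 := by
    intro h hh k hk
    rw [Finset.mul_sum, ← Finset.sum_filter]
    refine Finset.sum_congr ?_ fun d _ => mul_comm _ _
    ext d
    rw [gcd_dvd_iff hh hk ha hb, mem_filter]
  rw [Finset.sum_congr rfl fun h hh => Finset.sum_congr rfl fun k hk => e1 h hh k hk]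
  rw [Finset.sum_congr rfl fun h _ => Finset.sum_comm, Finset.sum_comm]
  refine Finset.sum_congr rfl fun d _ => ?_
  rw [Finset.mul_sum, Finset.sum_filter]
  refine Finset.sum_congr rfl fun h _ => ?_
  by_cases h1 : d / Nat.gcd d a ∣ h
  · rw [if_pos h1, Finset.mul_sum, Finset.sum_filter]
    refine Finset.sum_congr rfl fun k _ => ?_
    by_cases h2 : d / Nat.gcd d b ∣ k
    · rw [if_pos ⟨h1, h2⟩, if_pos h2]
    · rw [if_neg (fun h => h2 h.2), if_neg h2]
  · rw [if_neg h1]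
    exact Finset.sum_eq_zero fun k _ => if_neg fun h => h1 h.1

/-! ### The new variables -/

theorem mem_SF {q Y d : ℕ} : d ∈ SF q Y ↔ (1 ≤ d ∧ d ≤ Y) ∧ Squarefree d ∧ Nat.Coprime d q := by
  unfold SF
  rw [mem_filter, mem_Icc]

theorem fG_pos {q Y : ℕ} (hY : 1 ≤ Y) : 0 < fG q Y := by
  unfold fG
  have h1 : (1 : ℕ) ∈ SF q Y := mem_SF.2 ⟨⟨le_rfl, hY⟩, squarefree_one, Nat.coprime_one_left q⟩
  refine lt_of_lt_of_le ?_ (Finset.single_le_sum (f := fun d : ℕ => 1 / (Nat.totient d : ℝ))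
    (fun _ _ => by positivity) h1)
  simp

/-- from `d` to the new variables -/
theorem new_vars {q Y a b d : ℕ} (ha : 1 ≤ a) (hb : 1 ≤ b) (hab : Nat.Coprime a b) (hd : 1 ≤ d)
    (h1 : d / Nat.gcd d a ∈ SF q Y) (h2 : d / Nat.gcd d b ∈ SF q Y) :
    Nat.gcd d a * Nat.gcd d b * (d / (Nat.gcd d a * Nat.gcd d b)) = d ∧
    Nat.gcd d b * (d / (Nat.gcd d a * Nat.gcd d b)) = d / Nat.gcd d a ∧
    Nat.gcd d a * (d / (Nat.gcd d a * Nat.gcd d b)) = d / Nat.gcd d b ∧
    Squarefree (Nat.gcd d a) ∧ Squarefree (Nat.gcd d b) ∧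
    d / (Nat.gcd d a * Nat.gcd d b) ∈ SF q Y ∧
    d / (Nat.gcd d a * Nat.gcd d b) * max (Nat.gcd d a) (Nat.gcd d b) ≤ Y ∧
    Nat.Coprime (d / (Nat.gcd d a * Nat.gcd d b)) (a * b) := by
  obtain ⟨α, hα⟩ : ∃ α, α = Nat.gcd d a := ⟨_, rfl⟩
  obtain ⟨β, hβ⟩ : ∃ β, β = Nat.gcd d b := ⟨_, rfl⟩
  have hαa : α ∣ a := by rw [hα]; exact Nat.gcd_dvd_right _ _
  have hβb : β ∣ b := by rw [hβ]; exact Nat.gcd_dvd_right _ _
  have hαd : α ∣ d := by rw [hα]; exact Nat.gcd_dvd_left _ _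
  have hβd : β ∣ d := by rw [hβ]; exact Nat.gcd_dvd_left _ _
  have hαβ : Nat.Coprime α β :=
    Nat.Coprime.coprime_dvd_left hαa (Nat.Coprime.coprime_dvd_right hβb hab)
  have hα0 : 0 < α := Nat.pos_of_dvd_of_pos hαd hd
  have hβ0 : 0 < β := Nat.pos_of_dvd_of_pos hβd hd
  obtain ⟨s, hs⟩ : α * β ∣ d := hαβ.mul_dvd_of_dvd_of_dvd hαd hβd
  have e1 : d / (α * β) = s := by rw [hs]; exact Nat.mul_div_cancel_left _ (Nat.mul_pos hα0 hβ0)
  have e2 : d / α = β * s := by rw [hs, mul_assoc]; exact Nat.mul_div_cancel_left _ hα0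
  have e3 : d / β = α * s := by
    rw [hs, mul_comm α β, mul_assoc]; exact Nat.mul_div_cancel_left _ hβ0
  rw [← hα, e2] at h1
  rw [← hβ, e3] at h2
  rw [← hα, ← hβ, e1, e2, e3]
  obtain ⟨⟨-, h3⟩, h4, h5⟩ := mem_SF.1 h1
  obtain ⟨⟨-, h6⟩, h7, h8⟩ := mem_SF.1 h2
  have hs0 : 0 < s := by
    rcases Nat.eq_zero_or_pos s with h | h
    · rw [h, mul_zero] at hs
      omega
    · exact h
  have h9 := Nat.squarefree_mul_iff.1 h4
  have h10 := Nat.squarefree_mul_iff.1 h7
  refine ⟨hs.symm, rfl, rfl, h10.2.1, h9.2.1, mem_SF.2 ⟨⟨hs0, ?_⟩, h9.2.2, ?_⟩, ?_, ?_⟩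
  · exact (Nat.le_mul_of_pos_left s hβ0).trans h3
  · exact Nat.Coprime.coprime_dvd_left (Dvd.intro_left _ rfl) h5
  · rcases le_total α β with h | h
    · rw [max_eq_right h, mul_comm]; exact h3
    · rw [max_eq_left h, mul_comm]; exact h6
  · rw [Nat.coprime_mul_iff_right]
    constructor
    · refine Nat.coprime_of_dvd fun p hp hps hpa => ?_
      have hpα : ¬ p ∣ α := fun h => by
        have := Nat.Coprime.eq_one_of_dvd (Nat.Coprime.coprime_dvd_left hps h10.1.symm) h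
        exact hp.one_lt.ne' this
      have hco : Nat.Coprime p α := (Nat.Prime.coprime_iff_not_dvd hp).2 hpα
      have h11 : p * α ∣ d := hco.mul_dvd_of_dvd_of_dvd
        (by rw [hs]; exact Dvd.dvd.mul_left hps _) hαd
      have h12 : p * α ∣ a := hco.mul_dvd_of_dvd_of_dvd hpa hαa
      have h13 : p * α ∣ α := by
        conv_rhs => rw [hα]
        exact Nat.dvd_gcd h11 h12
      have h14 := Nat.le_of_dvd hα0 h13
      have := hp.two_le
      nlinarith
    · refine Nat.coprime_of_dvd fun p hp hps hpb => ?_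
      have hpβ : ¬ p ∣ β := fun h => by
        have := Nat.Coprime.eq_one_of_dvd (Nat.Coprime.coprime_dvd_left hps h9.1.symm) h
        exact hp.one_lt.ne' this
      have hco : Nat.Coprime p β := (Nat.Prime.coprime_iff_not_dvd hp).2 hpβ
      have h11 : p * β ∣ d := hco.mul_dvd_of_dvd_of_dvd
        (by rw [hs]; exact Dvd.dvd.mul_left hps _) hβd
      have h12 : p * β ∣ b := hco.mul_dvd_of_dvd_of_dvd hpb hβb
      have h13 : p * β ∣ β := by
        conv_rhs => rw [hβ]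
        exact Nat.dvd_gcd h11 h12
      have h14 := Nat.le_of_dvd hβ0 h13
      have := hp.two_le
      nlinarith

/-- from the new variables to `d` -/
theorem old_var {q Y a b α β s : ℕ} (ha : 1 ≤ a) (hb : 1 ≤ b) (hab : Nat.Coprime a b)
    (hq : Nat.Coprime (a * b) q) (hα : α ∣ a) (hβ : β ∣ b) (sα : Squarefree α) (sβ : Squarefree β)
    (hs : s ∈ SF q Y) (hY : s * max α β ≤ Y) (hco : Nat.Coprime s (a * b)) :
    Nat.gcd (α * β * s) a = α ∧ Nat.gcd (α * β * s) b = β ∧ α * β * s ∈ Icc 1 (Y * a) ∧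
    α * β * s / α = β * s ∧ α * β * s / β = α * s ∧ α * β * s / (α * β) = s ∧
    β * s ∈ SF q Y ∧ α * s ∈ SF q Y ∧ Nat.Coprime α β ∧ Nat.Coprime α s ∧ Nat.Coprime β s := by
  obtain ⟨⟨hs0, -⟩, hs1, hs2⟩ := mem_SF.1 hs
  have hα0 : 0 < α := Nat.pos_of_dvd_of_pos hα ha
  have hβ0 : 0 < β := Nat.pos_of_dvd_of_pos hβ hb
  have hsa : Nat.Coprime s a := (Nat.coprime_mul_iff_right.1 hco).1
  have hsb : Nat.Coprime s b := (Nat.coprime_mul_iff_right.1 hco).2
  have hαs : Nat.Coprime α s := Nat.Coprime.coprime_dvd_left hα hsa.symm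
  have hβs : Nat.Coprime β s := Nat.Coprime.coprime_dvd_left hβ hsb.symm
  have hβa : Nat.Coprime β a := Nat.Coprime.coprime_dvd_left hβ hab.symm
  have hαb : Nat.Coprime α b := Nat.Coprime.coprime_dvd_left hα hab
  have hαβ : Nat.Coprime α β := Nat.Coprime.coprime_dvd_right hβ hαb
  have hq1 : Nat.Coprime α q := Nat.Coprime.coprime_dvd_left (Dvd.dvd.mul_right hα b) hq
  have hq2 : Nat.Coprime β q := Nat.Coprime.coprime_dvd_left (Dvd.dvd.mul_left hβ a) hq
  have b1 : β * s ≤ Y := by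
    refine le_trans ?_ hY
    rw [mul_comm]
    exact Nat.mul_le_mul_left _ (le_max_right _ _)
  have b2 : α * s ≤ Y := by
    refine le_trans ?_ hY
    rw [mul_comm]
    exact Nat.mul_le_mul_left _ (le_max_left _ _)
  refine ⟨?_, ?_, ?_, ?_, ?_, ?_, ?_, ?_, hαβ, hαs, hβs⟩
  · rw [mul_assoc, Nat.Coprime.gcd_mul_right_cancel α (Nat.Coprime.mul_left hβa hsa)]
    exact Nat.gcd_eq_left hα
  · rw [mul_comm α β, mul_assoc, Nat.Coprime.gcd_mul_right_cancel β (Nat.Coprime.mul_left hαb hsb)]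
    exact Nat.gcd_eq_left hβ
  · rw [mem_Icc]
    refine ⟨Nat.mul_pos (Nat.mul_pos hα0 hβ0) hs0, ?_⟩
    calc α * β * s = (β * s) * α := by ring
      _ ≤ Y * a := Nat.mul_le_mul b1 (Nat.le_of_dvd ha hα)
  · rw [mul_assoc]; exact Nat.mul_div_cancel_left _ hα0
  · rw [mul_comm α β, mul_assoc]; exact Nat.mul_div_cancel_left _ hβ0
  · exact Nat.mul_div_cancel_left _ (Nat.mul_pos hα0 hβ0)
  · exact mem_SF.2 ⟨⟨Nat.mul_pos hβ0 hs0, b1⟩, (Nat.squarefree_mul hβs).2 ⟨sβ, hs1⟩,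
      Nat.Coprime.mul_left hq2 hs2⟩
  · exact mem_SF.2 ⟨⟨Nat.mul_pos hα0 hs0, b2⟩, (Nat.squarefree_mul hαs).2 ⟨sα, hs1⟩,
      Nat.Coprime.mul_left hq1 hs2⟩

open scoped Classical in
/-- the sum in the new variables -/
theorem rp {q Y a b : ℕ} (hY : 1 ≤ Y) (ha : 1 ≤ a) (hb : 1 ≤ b) (hab : Nat.Coprime a b)
    (hq : Nat.Coprime (a * b) q) (g : ℕ → ℕ → ℕ → ℝ) :
    (∑ d ∈ Icc 1 (Y * a), (Nat.totient d : ℝ) * (fy q Y (d / Nat.gcd d a) *
      fy q Y (d / Nat.gcd d b) * g d (d / Nat.gcd d a) (d / Nat.gcd d b))) * fG q Y ^ 2 =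
    ∑ α ∈ a.divisors, ∑ β ∈ b.divisors,
      (ArithmeticFunction.moebius α : ℝ) * (ArithmeticFunction.moebius β : ℝ) *
        ∑ s ∈ (SF q Y).filter (fun s => s * max α β ≤ Y ∧ Nat.Coprime s (a * b)),
          1 / (Nat.totient s : ℝ) * g (α * β * s) (β * s) (α * s) := by
  have hG : fG q Y ≠ 0 := (fG_pos hY).ne'
  -- the left hand side
  have hL : (∑ d ∈ Icc 1 (Y * a), (Nat.totient d : ℝ) * (fy q Y (d / Nat.gcd d a) *
      fy q Y (d / Nat.gcd d b) * g d (d / Nat.gcd d a) (d / Nat.gcd d b))) * fG q Y ^ 2 =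
      ∑ d ∈ (Icc 1 (Y * a)).filter (fun d => d / Nat.gcd d a ∈ SF q Y ∧
        d / Nat.gcd d b ∈ SF q Y), (Nat.totient d : ℝ) * (fy q Y (d / Nat.gcd d a) *
      fy q Y (d / Nat.gcd d b) * g d (d / Nat.gcd d a) (d / Nat.gcd d b)) * fG q Y ^ 2 := by
    rw [Finset.sum_mul]
    symm
    refine Finset.sum_filter_of_ne fun d _ hne => ?_
    by_contra hcon
    apply hne
    have : fy q Y (d / Nat.gcd d a) * fy q Y (d / Nat.gcd d b) = 0 := by
      by_cases h1 : d / Nat.gcd d a ∈ SF q Y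
      · have h2 : d / Nat.gcd d b ∉ SF q Y := fun h => hcon ⟨h1, h⟩
        unfold fy
        rw [if_neg h2, mul_zero]
      · unfold fy
        rw [if_neg h1, zero_mul]
    rw [this]
    ring
  -- the right hand side
  have hR : (∑ α ∈ a.divisors, ∑ β ∈ b.divisors,
      (ArithmeticFunction.moebius α : ℝ) * (ArithmeticFunction.moebius β : ℝ) *
        ∑ s ∈ (SF q Y).filter (fun s => s * max α β ≤ Y ∧ Nat.Coprime s (a * b)),
          1 / (Nat.totient s : ℝ) * g (α * β * s) (β * s) (α * s)) =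
      ∑ x ∈ (a.divisors ×ˢ (b.divisors ×ˢ SF q Y)).filter (fun x : ℕ × ℕ × ℕ =>
        (x.2.2 * max x.1 x.2.1 ≤ Y ∧ Nat.Coprime x.2.2 (a * b)) ∧
          Squarefree x.1 ∧ Squarefree x.2.1),
        (ArithmeticFunction.moebius x.1 : ℝ) * (ArithmeticFunction.moebius x.2.1 : ℝ) *
          (1 / (Nat.totient x.2.2 : ℝ) * g (x.1 * x.2.1 * x.2.2) (x.2.1 * x.2.2)
            (x.1 * x.2.2)) := by
    rw [Finset.sum_filter, Finset.sum_product]
    refine Finset.sum_congr rfl fun α _ => ?_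
    rw [Finset.sum_product]
    refine Finset.sum_congr rfl fun β _ => ?_
    rw [Finset.mul_sum, Finset.sum_filter]
    refine Finset.sum_congr rfl fun s _ => ?_
    by_cases h1 : s * max α β ≤ Y ∧ Nat.Coprime s (a * b)
    · rw [if_pos h1]
      by_cases h2 : Squarefree α ∧ Squarefree β
      · rw [if_pos ⟨h1, h2⟩]
      · rw [if_neg (fun h => h2 h.2)]
        have : (ArithmeticFunction.moebius α : ℝ) * (ArithmeticFunction.moebius β : ℝ) = 0 := by
          by_cases h3 : Squarefree α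
          · have h4 : ¬ Squarefree β := fun h => h2 ⟨h3, h⟩
            rw [ArithmeticFunction.moebius_eq_zero_of_not_squarefree h4]
            simp
          · rw [ArithmeticFunction.moebius_eq_zero_of_not_squarefree h3]
            simp
        rw [this, zero_mul]
    · rw [if_neg h1, if_neg (fun h => h1 h.1)]
  rw [hL, hR]
  refine Finset.sum_nbij' (fun d => (Nat.gcd d a, Nat.gcd d b, d / (Nat.gcd d a * Nat.gcd d b)))
    (fun x => x.1 * x.2.1 * x.2.2) ?_ ?_ ?_ ?_ ?_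
  · intro d hd
    obtain ⟨h1, h2, h3⟩ := mem_filter.1 hd
    obtain ⟨-, -, -, h4, h5, h6, h7, h8⟩ := new_vars ha hb hab (mem_Icc.1 h1).1 h2 h3
    refine mem_filter.2 ⟨mem_product.2 ⟨?_, mem_product.2 ⟨?_, h6⟩⟩, ⟨h7, h8⟩, h4, h5⟩
    · exact Nat.mem_divisors.2 ⟨Nat.gcd_dvd_right _ _, by omega⟩
    · exact Nat.mem_divisors.2 ⟨Nat.gcd_dvd_right _ _, by omega⟩
  · rintro ⟨α, β, s⟩ hx
    obtain ⟨h1, ⟨h2, h3⟩, h4, h5⟩ := mem_filter.1 hx
    obtain ⟨h6, h7⟩ := mem_product.1 h1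
    obtain ⟨h8, h9⟩ := mem_product.1 h7
    obtain ⟨g1, g2, g3, g4, g5, g6, g7, g8, -⟩ := old_var ha hb hab hq
      (Nat.dvd_of_mem_divisors h6) (Nat.dvd_of_mem_divisors h8) h4 h5 h9 h2 h3
    refine mem_filter.2 ⟨g3, ?_, ?_⟩
    · show α * β * s / Nat.gcd (α * β * s) a ∈ SF q Y
      rw [g1, g4]; exact g7
    · show α * β * s / Nat.gcd (α * β * s) b ∈ SF q Y
      rw [g2, g5]; exact g8
  · intro d hd
    obtain ⟨h1, h2, h3⟩ := mem_filter.1 hd
    exact (new_vars ha hb hab (mem_Icc.1 h1).1 h2 h3).1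
  · rintro ⟨α, β, s⟩ hx
    obtain ⟨h1, ⟨h2, h3⟩, h4, h5⟩ := mem_filter.1 hx
    obtain ⟨h6, h7⟩ := mem_product.1 h1
    obtain ⟨h8, h9⟩ := mem_product.1 h7
    obtain ⟨g1, g2, g3, g4, g5, g6, g7, g8, -⟩ := old_var ha hb hab hq
      (Nat.dvd_of_mem_divisors h6) (Nat.dvd_of_mem_divisors h8) h4 h5 h9 h2 h3
    show (Nat.gcd (α * β * s) a, Nat.gcd (α * β * s) b,
      α * β * s / (Nat.gcd (α * β * s) a * Nat.gcd (α * β * s) b)) = (α, β, s)
    rw [g1, g2, g6]
  · intro d hd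
    obtain ⟨h1, h2, h3⟩ := mem_filter.1 hd
    obtain ⟨k1, k2, k3, h4, h5, h6, h7, h8⟩ := new_vars ha hb hab (mem_Icc.1 h1).1 h2 h3
    obtain ⟨g1, g2, g3, g4, g5, g6, g7, g8, g9, g10, g11⟩ := old_var ha hb hab hq
      (Nat.gcd_dvd_right d a) (Nat.gcd_dvd_right d b) h4 h5 h6 h7 h8
    obtain ⟨α, hα⟩ : ∃ α, α = Nat.gcd d a := ⟨_, rfl⟩
    obtain ⟨β, hβ⟩ : ∃ β, β = Nat.gcd d b := ⟨_, rfl⟩
    obtain ⟨s, hs⟩ : ∃ s, s = d / (Nat.gcd d a * Nat.gcd d b) := ⟨_, rfl⟩
    simp only [← k2, ← k3]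
    rw [← hs, ← hα, ← hβ]
    rw [← hs, ← hα, ← hβ] at k1
    rw [← hs, ← hβ] at g7
    rw [← hs, ← hα] at g8
    rw [← hα, ← hβ] at g9
    rw [← hs, ← hα] at g10
    rw [← hs, ← hβ] at g11
    rw [← hs] at h6
    rw [k1]
    have hsq := (mem_SF.1 h6).2.1
    have p1 : 0 < Nat.totient α := Nat.totient_pos.2 (Nat.pos_of_ne_zero fun h => by
      rw [hα] at h
      have := Nat.gcd_pos_of_pos_right d ha
      omega)
    have p2 : 0 < Nat.totient β := Nat.totient_pos.2 (Nat.pos_of_ne_zero fun h => by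
      rw [hβ] at h
      have := Nat.gcd_pos_of_pos_right d hb
      omega)
    have p3 : 0 < Nat.totient s := Nat.totient_pos.2 (mem_SF.1 h6).1.1
    have p1' : (Nat.totient α : ℝ) ≠ 0 := by exact_mod_cast p1.ne'
    have p2' : (Nat.totient β : ℝ) ≠ 0 := by exact_mod_cast p2.ne'
    have p3' : (Nat.totient s : ℝ) ≠ 0 := by exact_mod_cast p3.ne'
    have hφ : (Nat.totient d : ℝ) = Nat.totient α * Nat.totient β * Nat.totient s := by
      rw [← k1, Nat.totient_mul (Nat.Coprime.mul_left g10 g11), Nat.totient_mul g9]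
      push_cast
      ring
    have hms : (ArithmeticFunction.moebius s : ℝ) * ArithmeticFunction.moebius s = 1 := by
      have := ArithmeticFunction.moebius_sq_eq_one_of_squarefree hsq
      rw [sq] at this
      exact_mod_cast this
    have hm1 : (ArithmeticFunction.moebius (β * s) : ℝ) =
        ArithmeticFunction.moebius β * ArithmeticFunction.moebius s := by
      rw [ArithmeticFunction.isMultiplicative_moebius.map_mul_of_coprime g11]
      push_cast
      rfl
    have hm2 : (ArithmeticFunction.moebius (α * s) : ℝ) =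
        ArithmeticFunction.moebius α * ArithmeticFunction.moebius s := by
      rw [ArithmeticFunction.isMultiplicative_moebius.map_mul_of_coprime g10]
      push_cast
      rfl
    unfold fy
    rw [if_pos g7, if_pos g8, hφ, hm1, hm2, Nat.totient_mul g10, Nat.totient_mul g11]
    push_cast
    have hmm : (ArithmeticFunction.moebius s : ℝ) ^ 2 = 1 := by rw [sq]; exact hms
    field_simp
    rw [hmm]
    ring

open scoped Classical in
theorem pf_QI (hSB : T_SB) : T_QI := by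
  intro q Y a b hq1 hY ha hb hab hq
  obtain ⟨-, hS1, hS2⟩ := hSB q Y hq1 hY
  have hdiv : ∀ d ∈ Icc 1 (Y * a), 1 ≤ d / Nat.gcd d a ∧ 1 ≤ d / Nat.gcd d b := by
    intro d hd
    have hd1 := (mem_Icc.1 hd).1
    exact ⟨Nat.div_pos (Nat.gcd_le_left _ hd1) (Nat.gcd_pos_of_pos_left _ hd1),
      Nat.div_pos (Nat.gcd_le_left _ hd1) (Nat.gcd_pos_of_pos_left _ hd1)⟩
  constructor
  · have h1 : Q1 q Y a b = ∑ d ∈ Icc 1 (Y * a), (Nat.totient d : ℝ) *
        (fy q Y (d / Nat.gcd d a) * fy q Y (d / Nat.gcd d b) * 1) := by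
      unfold Q1
      rw [show (∑ h ∈ Icc 1 Y, ∑ k ∈ Icc 1 Y, fb q Y h * fb q Y k *
        ((Nat.gcd (h * a) (k * b) : ℝ) / ((h : ℝ) * k))) =
        ∑ h ∈ Icc 1 Y, ∑ k ∈ Icc 1 Y, (fb q Y h / h * (fb q Y k / k)) *
          ∑ d ∈ (Nat.gcd (h * a) (k * b)).divisors, (Nat.totient d : ℝ) from ?_]
      · rw [swap Y a b ha hb (fun h k => fb q Y h / h * (fb q Y k / k))
          (fun d => (Nat.totient d : ℝ))]
        refine Finset.sum_congr rfl fun d hd => ?_
        rw [← hS1 _ (hdiv d hd).1, ← hS1 _ (hdiv d hd).2, Finset.sum_mul_sum, mul_one]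
      · refine Finset.sum_congr rfl fun h hh => Finset.sum_congr rfl fun k hk => ?_
        rw [sum_tot]
        have hh0 : (h : ℝ) ≠ 0 := by
          have := (mem_Icc.1 hh).1
          have : h ≠ 0 := by omega
          exact_mod_cast this
        have hk0 : (k : ℝ) ≠ 0 := by
          have := (mem_Icc.1 hk).1
          have : k ≠ 0 := by omega
          exact_mod_cast this
        field_simp
    rw [h1, rp hY ha hb hab hq (fun _ _ _ => 1)]
    simp only [mul_one]
  · have h2 : Q2 q Y a b = ∑ d ∈ Icc 1 (Y * a), (Nat.totient d : ℝ) *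
        (fy q Y (d / Nat.gcd d a) * fy q Y (d / Nat.gcd d b) *
          (Real.log ((a : ℝ) * b) + (Real.log ((d / Nat.gcd d a : ℕ) : ℝ) -
            fP q Y (d / Nat.gcd d a)) + (Real.log ((d / Nat.gcd d b : ℕ) : ℝ) -
            fP q Y (d / Nat.gcd d b)) - 2 * (Real.log d + la d))) := by
      unfold Q2
      rw [show (∑ h ∈ Icc 1 Y, ∑ k ∈ Icc 1 Y, fb q Y h * fb q Y k *
        ((Nat.gcd (h * a) (k * b) : ℝ) / ((h : ℝ) * k)) * Real.log (PP (h * a) (k * b))) =
        (∑ h ∈ Icc 1 Y, ∑ k ∈ Icc 1 Y, (fb q Y h / h * (fb q Y k / k) *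
          (Real.log ((a : ℝ) * b) + Real.log h + Real.log k)) *
          ∑ d ∈ (Nat.gcd (h * a) (k * b)).divisors, (Nat.totient d : ℝ)) -
        2 * ∑ h ∈ Icc 1 Y, ∑ k ∈ Icc 1 Y, (fb q Y h / h * (fb q Y k / k)) *
          ∑ d ∈ (Nat.gcd (h * a) (k * b)).divisors,
            (Nat.totient d : ℝ) * (Real.log d + la d) from ?_]
      · rw [swap Y a b ha hb (fun h k => fb q Y h / h * (fb q Y k / k) *
          (Real.log ((a : ℝ) * b) + Real.log h + Real.log k)) (fun d => (Nat.totient d : ℝ)),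
          swap Y a b ha hb (fun h k => fb q Y h / h * (fb q Y k / k))
          (fun d => (Nat.totient d : ℝ) * (Real.log d + la d)), Finset.mul_sum,
          ← Finset.sum_sub_distrib]
        refine Finset.sum_congr rfl fun d hd => ?_
        have e1 := hS1 _ (hdiv d hd).1
        have e2 := hS1 _ (hdiv d hd).2
        have e3 := hS2 _ (hdiv d hd).1
        have e4 := hS2 _ (hdiv d hd).2
        have e5 : ∑ h ∈ (Icc 1 Y).filter (fun h => d / Nat.gcd d a ∣ h),
            ∑ k ∈ (Icc 1 Y).filter (fun k => d / Nat.gcd d b ∣ k),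
              fb q Y h / h * (fb q Y k / k) *
                (Real.log ((a : ℝ) * b) + Real.log h + Real.log k) =
            Real.log ((a : ℝ) * b) *
              ((∑ h ∈ (Icc 1 Y).filter (fun h => d / Nat.gcd d a ∣ h), fb q Y h / h) *
              ∑ k ∈ (Icc 1 Y).filter (fun k => d / Nat.gcd d b ∣ k), fb q Y k / k) +
            (∑ h ∈ (Icc 1 Y).filter (fun h => d / Nat.gcd d a ∣ h),
              fb q Y h / h * Real.log h) *
              (∑ k ∈ (Icc 1 Y).filter (fun k => d / Nat.gcd d b ∣ k), fb q Y k / k) +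
            (∑ h ∈ (Icc 1 Y).filter (fun h => d / Nat.gcd d a ∣ h), fb q Y h / h) *
              ∑ k ∈ (Icc 1 Y).filter (fun k => d / Nat.gcd d b ∣ k),
                fb q Y k / k * Real.log k := by
          rw [Finset.sum_mul_sum, Finset.sum_mul_sum, Finset.sum_mul_sum, Finset.mul_sum,
            ← Finset.sum_add_distrib, ← Finset.sum_add_distrib]
          refine Finset.sum_congr rfl fun h _ => ?_
          rw [Finset.mul_sum, ← Finset.sum_add_distrib, ← Finset.sum_add_distrib]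
          refine Finset.sum_congr rfl fun k _ => ?_
          ring
        have e6 : ∑ h ∈ (Icc 1 Y).filter (fun h => d / Nat.gcd d a ∣ h),
            ∑ k ∈ (Icc 1 Y).filter (fun k => d / Nat.gcd d b ∣ k),
              fb q Y h / h * (fb q Y k / k) =
              (∑ h ∈ (Icc 1 Y).filter (fun h => d / Nat.gcd d a ∣ h), fb q Y h / h) *
              ∑ k ∈ (Icc 1 Y).filter (fun k => d / Nat.gcd d b ∣ k), fb q Y k / k := by
          rw [Finset.sum_mul_sum]
        rw [e5, e6, e1, e2, e3, e4]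
        ring
      · rw [Finset.mul_sum, ← Finset.sum_sub_distrib]
        refine Finset.sum_congr rfl fun h hh => ?_
        rw [Finset.mul_sum, ← Finset.sum_sub_distrib]
        refine Finset.sum_congr rfl fun k hk => ?_
        rw [sum_tot, nlog]
        have hh1 := (mem_Icc.1 hh).1
        have hk1 := (mem_Icc.1 hk).1
        have hh0 : (h : ℝ) ≠ 0 := by
          have : h ≠ 0 := by omega
          exact_mod_cast this
        have hk0 : (k : ℝ) ≠ 0 := by
          have : k ≠ 0 := by omega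
          exact_mod_cast this
        have ha0 : (a : ℝ) ≠ 0 := by
          have : a ≠ 0 := by omega
          exact_mod_cast this
        have hb0 : (b : ℝ) ≠ 0 := by
          have : b ≠ 0 := by omega
          exact_mod_cast this
        have hg0 : (Nat.gcd (h * a) (k * b) : ℝ) ≠ 0 := by
          have := Nat.gcd_pos_of_pos_left (k * b) (Nat.mul_pos hh1 ha)
          exact_mod_cast this.ne'
        have hlog : Real.log (PP (h * a) (k * b)) = Real.log ((a : ℝ) * b) + Real.log h +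
            Real.log k - 2 * Real.log (Nat.gcd (h * a) (k * b) : ℝ) := by
          unfold PP
          rw [Real.log_div (by positivity) (by positivity), Real.log_pow]
          push_cast
          rw [Real.log_mul (by positivity) (by positivity), Real.log_mul hh0 ha0,
            Real.log_mul hk0 hb0, Real.log_mul ha0 hb0]
          ring
        rw [hlog]
        field_simp
    rw [h2, rp hY ha hb hab hq (fun d e1 e2 => Real.log ((a : ℝ) * b) +
      (Real.log (e1 : ℝ) - fP q Y e1) + (Real.log (e2 : ℝ) - fP q Y e2) -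
        2 * (Real.log d + la d))]
    refine Finset.sum_congr rfl fun α hα => Finset.sum_congr rfl fun β hβ => ?_
    congr 1
    refine Finset.sum_congr rfl fun s hs => ?_
    congr 1
    have hα0 : (α : ℝ) ≠ 0 := by exact_mod_cast (Nat.pos_of_mem_divisors hα).ne'
    have hβ0 : (β : ℝ) ≠ 0 := by exact_mod_cast (Nat.pos_of_mem_divisors hβ).ne'
    have hs0 : (s : ℝ) ≠ 0 := by
      have := (mem_SF.1 (mem_filter.1 hs).1).1.1
      have : s ≠ 0 := by omega
      exact_mod_cast this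
    push_cast
    rw [Real.log_mul (mul_ne_zero hα0 hβ0) hs0, Real.log_mul hα0 hβ0, Real.log_mul hβ0 hs0,
      Real.log_mul hα0 hs0]
    ring

end Pool.Agent.H1.OT
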